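import Mathlib

set_option autoImplicit false

/-! # A graph that is `γ`-edge-critical but not `ir`-edge-critical -/

namespace Pool.Agent.Results.MP_7f565b_co.GammaCriticalNotIr

/-- `D` is a dominating set -/
def Dominating {V : Type} (G : SimpleGraph V) (D : Finset V) : Prop :=
  ∀ v, ∃ d ∈ D, v = d ∨ G.Adj d v

/-- the domination number -/
noncomputable def gamma {V : Type} (G : SimpleGraph V) : ℕ :=
  sInf {k : ℕ | ∃ D : Finset V, Dominating G D ∧ D.card = k}

/-- `w` is a private neighbour of `v` with respect to `S` -/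
def Private {V : Type} (G : SimpleGraph V) (S : Finset V) (v w : V) : Prop :=
  (w = v ∨ G.Adj v w) ∧ ∀ u ∈ S, u ≠ v → ¬ (w = u ∨ G.Adj u w)

/-- `S` is irredundant: each vertex of `S` has a private neighbour -/
def Irredundant {V : Type} (G : SimpleGraph V) (S : Finset V) : Prop :=
  ∀ v ∈ S, ∃ w, Private G S v w

/-- `S` is maximal irredundant -/
def MaxIrredundant {V : Type} (G : SimpleGraph V) (S : Finset V) : Prop :=
  Irredundant G S ∧ ∀ S' : Finset V, S ⊂ S' → ¬ Irredundant G S'

/-- the lower irredundance number -/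
noncomputable def ir {V : Type} (G : SimpleGraph V) : ℕ :=
  sInf {k : ℕ | ∃ S : Finset V, MaxIrredundant G S ∧ S.card = k}

/-- `G` is `π`-edge-critical: adding any missing edge strictly lowers `π` -/
def EdgeCritical {V : Type} (π : SimpleGraph V → ℕ) (G : SimpleGraph V) : Prop :=
  ∀ u v : V, u ≠ v → ¬ G.Adj u v → π (G ⊔ SimpleGraph.edge u v) < π G

theorem Irredundant.mono {V : Type} {G : SimpleGraph V} {S S' : Finset V} (h : S ⊆ S')
    (hS : Irredundant G S') : Irredundant G S := by
  intro v hv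
  obtain ⟨w, hw1, hw2⟩ := hS v (h hv)
  exact ⟨w, hw1, fun u hu huv => hw2 u (h hu) huv⟩

/-- the edges of the graph -/
def edges : List (ℕ × ℕ) :=
  [(0, 2), (0, 4), (0, 5), (0, 6), (0, 7), (0, 8), (1, 4), (1, 5), (1, 7), (2, 3), (2, 6), (3, 7),
   (3, 9), (4, 6), (4, 7), (4, 9), (5, 6), (5, 7), (5, 9), (7, 8), (8, 10)]

def base (u v : Fin 11) : Bool :=
  edges.contains (u.val, v.val) || edges.contains (v.val, u.val)

/-- the graph with `11` vertices -/
def G : SimpleGraph (Fin 11) where
  Adj u v := base u v = true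
  symm := ⟨by decide +kernel⟩
  loopless := ⟨by decide +kernel⟩

/-- the adjacency with the additional edge `pq` -/
def aug (p q u v : Fin 11) : Bool := base u v || (u == p && v == q) || (u == q && v == p)

theorem aug_iff {p q : Fin 11} (hpq : p ≠ q) (u v : Fin 11) :
    (G ⊔ SimpleGraph.edge p q).Adj u v ↔ aug p q u v = true := by
  rw [SimpleGraph.sup_adj, SimpleGraph.edge_adj]
  unfold aug
  simp only [Bool.or_eq_true, Bool.and_eq_true, beq_iff_eq]
  constructor
  · rintro (h | ⟨h, -⟩)
    · exact Or.inl (Or.inl h)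
    · rcases h with ⟨rfl, rfl⟩ | ⟨rfl, rfl⟩
      · exact Or.inl (Or.inr ⟨rfl, rfl⟩)
      · exact Or.inr ⟨rfl, rfl⟩
  · rintro ((h | ⟨rfl, rfl⟩) | ⟨rfl, rfl⟩)
    · exact Or.inl h
    · exact Or.inr ⟨Or.inl ⟨rfl, rfl⟩, hpq⟩
    · exact Or.inr ⟨Or.inr ⟨rfl, rfl⟩, hpq.symm⟩

/-- the set of entries of `l` is irredundant -/
def irrL (a : Fin 11 → Fin 11 → Bool) (l : List (Fin 11)) : Bool :=
  l.all fun v => (List.finRange 11).any fun w => (w == v || a v w) &&
    l.all fun u => u == v || !(w == u || a u w)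

/-- the set of entries of `l` is maximal irredundant -/
def maxirrL (a : Fin 11 → Fin 11 → Bool) (l : List (Fin 11)) : Bool :=
  irrL a l && (List.finRange 11).all fun z => l.contains z || !irrL a (z :: l)

theorem irrL_iff (H : SimpleGraph (Fin 11)) (a : Fin 11 → Fin 11 → Bool)
    (ha : ∀ u v, H.Adj u v ↔ a u v = true) (l : List (Fin 11)) :
    Irredundant H l.toFinset ↔ irrL a l = true := by
  unfold Irredundant Private irrL
  simp only [ha, List.all_eq_true, List.any_eq_true, List.mem_finRange, true_and,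
    Bool.and_eq_true, Bool.or_eq_true, beq_iff_eq, Bool.not_eq_true', List.mem_toFinset,
    Bool.or_eq_false_iff, beq_eq_false_iff_ne, ne_eq, not_or, Bool.not_eq_true]
  constructor
  · intro h v hv
    obtain ⟨w, hw1, hw2⟩ := h v hv
    refine ⟨w, hw1, fun u hu => ?_⟩
    by_cases huv : u = v
    · exact Or.inl huv
    · exact Or.inr (hw2 u hu huv)
  · intro h v hv
    obtain ⟨w, hw1, hw2⟩ := h v hv
    refine ⟨w, hw1, fun u hu huv => ?_⟩
    exact (hw2 u hu).resolve_left huv

theorem maxirrL_iff (H : SimpleGraph (Fin 11)) (a : Fin 11 → Fin 11 → Bool)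
    (ha : ∀ u v, H.Adj u v ↔ a u v = true) (l : List (Fin 11)) :
    MaxIrredundant H l.toFinset ↔ maxirrL a l = true := by
  unfold MaxIrredundant maxirrL
  rw [Bool.and_eq_true, ← irrL_iff H a ha]
  refine and_congr_right fun _ => ?_
  simp only [List.all_eq_true, List.mem_finRange, forall_true_left, Bool.or_eq_true,
    Bool.not_eq_true', List.contains_iff_mem]
  constructor
  · intro h z
    by_cases hz : z ∈ l
    · exact Or.inl hz
    · right
      rw [← Bool.not_eq_true, ← irrL_iff H a ha]
      apply h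
      rw [Finset.ssubset_iff_subset_ne]
      constructor
      · intro w hw
        rw [List.mem_toFinset] at hw ⊢
        exact List.mem_cons_of_mem _ hw
      · intro heq
        apply hz
        have : z ∈ l.toFinset := by rw [heq]; simp
        simpa using this
  · intro h S' hS' hirr
    obtain ⟨hsub, hne⟩ := Finset.ssubset_iff_subset_ne.1 hS'
    have : ∃ z ∈ S', z ∉ l.toFinset := by
      by_contra hc
      push Not at hc
      exact hne (Finset.Subset.antisymm hsub hc)
    obtain ⟨z, hz, hzn⟩ := this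
    have h1 : Irredundant H (z :: l).toFinset := by
      refine Irredundant.mono ?_ hirr
      intro w hw
      rw [List.mem_toFinset, List.mem_cons] at hw
      rcases hw with rfl | hw
      · exact hz
      · exact hsub (by rwa [List.mem_toFinset])
    rw [irrL_iff H a ha] at h1
    have hz' : ¬ z ∈ l := by simpa using hzn
    have h3 := (h z).resolve_left hz'
    rw [h1] at h3
    exact Bool.noConfusion h3

theorem dom3 : ∀ p q : Fin 11, p ≠ q → base p q = false → ∃ x y z : Fin 11,
    ∀ v : Fin 11, (v = x ∨ aug p q x v = true) ∨ (v = y ∨ aug p q y v = true) ∨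
      (v = z ∨ aug p q z v = true) := by
  decide +kernel

theorem nodom3 : ∀ x y z : Fin 11, ∃ v : Fin 11,
    (v ≠ x ∧ base x v = false) ∧ (v ≠ y ∧ base y v = false) ∧ (v ≠ z ∧ base z v = false) := by
  decide +kernel

/-- a finset with at most three elements lies in `{x, y, z}` -/
theorem sub3 (D : Finset (Fin 11)) (h : D.card ≤ 3) :
    ∃ x y z, ∀ d ∈ D, d = x ∨ d = y ∨ d = z := by
  rcases Nat.lt_or_ge 2 D.card with h3 | h3
  · obtain ⟨x, y, z, -, -, -, h⟩ := Finset.card_eq_three.1 (show D.card = 3 by omega)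
    exact ⟨x, y, z, by rw [h]; intro d hd; simpa using hd⟩
  · rcases Nat.lt_or_ge 1 D.card with h2 | h2
    · obtain ⟨x, y, -, h⟩ := Finset.card_eq_two.1 (show D.card = 2 by omega)
      exact ⟨x, y, y, by rw [h]; intro d hd; simpa using hd⟩
    · rcases Nat.lt_or_ge 0 D.card with h' | h'
      · obtain ⟨x, h⟩ := Finset.card_eq_one.1 (show D.card = 1 by omega)
        exact ⟨x, x, x, by rw [h]; intro d hd; left; simpa using hd⟩
      · have h0' : D = ∅ := Finset.card_eq_zero.1 (by omega)
        exact ⟨0, 0, 0, by rw [h0']; intro d hd; simp at hd⟩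

theorem gamma_G : 4 ≤ gamma G := by
  have hne : {k : ℕ | ∃ D : Finset (Fin 11), Dominating G D ∧ D.card = k}.Nonempty :=
    ⟨_, Finset.univ, fun v => ⟨v, Finset.mem_univ _, Or.inl rfl⟩, rfl⟩
  obtain ⟨D, hD, hk⟩ := Nat.sInf_mem hne
  have hk' : D.card = gamma G := hk
  by_contra hlt
  obtain ⟨x, y, z, hxyz⟩ := sub3 D (by omega)
  obtain ⟨v, ⟨n1, b1⟩, ⟨n2, b2⟩, ⟨n3, b3⟩⟩ := nodom3 x y z
  obtain ⟨d, hd, hdv⟩ := hD v
  have hdv' : v = d ∨ base d v = true := hdv
  rcases hxyz d hd with rfl | rfl | rfl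
  · rcases hdv' with h | h
    · exact n1 h
    · rw [b1] at h; exact Bool.noConfusion h
  · rcases hdv' with h | h
    · exact n2 h
    · rw [b2] at h; exact Bool.noConfusion h
  · rcases hdv' with h | h
    · exact n3 h
    · rw [b3] at h; exact Bool.noConfusion h

theorem gamma_critical : EdgeCritical gamma G := by
  intro p q hpq hadj
  have hb : base p q = false := by
    rw [← Bool.not_eq_true]
    exact hadj
  obtain ⟨x, y, z, h⟩ := dom3 p q hpq hb
  have hd : Dominating (G ⊔ SimpleGraph.edge p q) {x, y, z} := by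
    intro v
    rcases h v with h | h | h
    · exact ⟨x, by simp, h.imp id (aug_iff hpq x v).2⟩
    · exact ⟨y, by simp, h.imp id (aug_iff hpq y v).2⟩
    · exact ⟨z, by simp, h.imp id (aug_iff hpq z v).2⟩
  have h2 : gamma (G ⊔ SimpleGraph.edge p q) ≤ ({x, y, z} : Finset (Fin 11)).card :=
    Nat.sInf_le ⟨_, hd, rfl⟩
  have h3 : ({x, y, z} : Finset (Fin 11)).card ≤ 3 := Finset.card_le_three
  have h4 := gamma_G
  omega

theorem max3 : maxirrL base [0, 1, 2] = true := by
  decide +kernel

theorem nopair : ∀ x y : Fin 11, maxirrL (aug 0 1) [x, y] = false := by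
  decide +kernel

theorem noempty : maxirrL (aug 0 1) [] = false := by
  decide +kernel

theorem ir_G : ir G ≤ 3 := by
  have h := (maxirrL_iff G base (fun _ _ => Iff.rfl) [0, 1, 2]).2 max3
  have h2 : ir G ≤ ([0, 1, 2] : List (Fin 11)).toFinset.card := Nat.sInf_le ⟨_, h, rfl⟩
  have h3 : ([0, 1, 2] : List (Fin 11)).toFinset.card ≤ 3 := List.toFinset_card_le _
  omega

theorem ir_aug : 3 ≤ ir (G ⊔ SimpleGraph.edge 0 1) := by
  have h01 : (0 : Fin 11) ≠ 1 := by decide
  have hne : {k : ℕ | ∃ S : Finset (Fin 11),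
      MaxIrredundant (G ⊔ SimpleGraph.edge 0 1) S ∧ S.card = k}.Nonempty := by
    classical
    have hfin : (Finset.univ.filter
        (fun S : Finset (Fin 11) => Irredundant (G ⊔ SimpleGraph.edge 0 1) S)).Nonempty :=
      ⟨∅, Finset.mem_filter.2 ⟨Finset.mem_univ _, fun v hv => absurd hv (Finset.notMem_empty v)⟩⟩
    obtain ⟨S, hS, hmax⟩ := Finset.exists_max_image _ (fun S : Finset (Fin 11) => S.card) hfin
    refine ⟨S.card, S, ⟨(Finset.mem_filter.1 hS).2, ?_⟩, rfl⟩
    intro S' hSS' hirr
    have h1 := hmax S' (Finset.mem_filter.2 ⟨Finset.mem_univ _, hirr⟩)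
    have h2 := Finset.card_lt_card hSS'
    omega
  obtain ⟨S, hS, hk⟩ := Nat.sInf_mem hne
  have hk' : S.card = ir (G ⊔ SimpleGraph.edge 0 1) := hk
  by_contra hlt
  have hle : S.card ≤ 2 := by omega
  have hcase : (∃ x y : Fin 11, S = [x, y].toFinset) ∨ S = ([] : List (Fin 11)).toFinset := by
    rcases Nat.lt_or_ge 0 S.card with hpos | h0
    · left
      rcases Nat.lt_or_ge 1 S.card with h | h
      · obtain ⟨x, y, -, h⟩ := Finset.card_eq_two.1 (show S.card = 2 by omega)
        exact ⟨x, y, by rw [h]; ext d; simp⟩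
      · obtain ⟨x, h⟩ := Finset.card_eq_one.1 (show S.card = 1 by omega)
        exact ⟨x, x, by rw [h]; ext d; simp⟩
    · right
      rw [Finset.card_eq_zero.1 (show S.card = 0 by omega)]
      rfl
  rcases hcase with ⟨x, y, rfl⟩ | rfl
  · rw [maxirrL_iff _ (aug 0 1) (aug_iff h01), nopair] at hS
    exact Bool.noConfusion hS
  · rw [maxirrL_iff _ (aug 0 1) (aug_iff h01), noempty] at hS
    exact Bool.noConfusion hS

theorem ir_not_critical : ¬ EdgeCritical ir G := by
  intro h
  have h01 : (0 : Fin 11) ≠ 1 := by decide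
  have h1 := h 0 1 h01 (by
    intro hh
    have h' : base 0 1 = true := hh
    exact absurd h' (by decide))
  have h2 := ir_G
  have h3 := ir_aug
  omega

/-- **Theorem.** There is a graph (on `11` vertices) that is `γ`-edge-critical but not
`ir`-edge-critical. -/
theorem result : ∃ G : SimpleGraph (Fin 11), EdgeCritical gamma G ∧ ¬ EdgeCritical ir G :=
  ⟨G, gamma_critical, ir_not_critical⟩

end Pool.Agent.Results.MP_7f565b_co.GammaCriticalNotIr
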