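import Mathlib

set_option autoImplicit false

/-! # A graph that is `ir`-edge-critical but not `γ`-edge-critical -/

namespace Pool.Agent.Results.MP_7f565b_co.IrCriticalNotGamma

/-- `D` is a dominating set -/
def Dominating {V : Type} (G : SimpleGraph V) (D : Finset V) : Prop :=
  ∀ v, ∃ d ∈ D, v = d ∨ G.Adj d v

/-- the domination number -/
noncomputable def gamma {V : Type} (G : SimpleGraph V) : ℕ :=
  sInf {k : ℕ | ∃ D : Finset V, Dominating G D ∧ D.card = k}

/-- `w` is a private neighbour of `v` with respect to `S` -/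
def Private {V : Type} (G : SimpleGraph V) (S : Finset V) (v w : V) : Prop :=
  (w = v ∨ G.Adj v w) ∧ ∀ u ∈ S, u ≠ v → ¬ (w = u ∨ G.Adj u w)

/-- `S` is irredundant: each vertex of `S` has a private neighbour -/
def Irredundant {V : Type} (G : SimpleGraph V) (S : Finset V) : Prop :=
  ∀ v ∈ S, ∃ w, Private G S v w

/-- `S` is maximal irredundant -/
def MaxIrredundant {V : Type} (G : SimpleGraph V) (S : Finset V) : Prop :=
  Irredundant G S ∧ ∀ S' : Finset V, S ⊂ S' → ¬ Irredundant G S'

/-- the lower irredundance number -/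
noncomputable def ir {V : Type} (G : SimpleGraph V) : ℕ :=
  sInf {k : ℕ | ∃ S : Finset V, MaxIrredundant G S ∧ S.card = k}

/-- `G` is `π`-edge-critical: adding any missing edge strictly lowers `π` -/
def EdgeCritical {V : Type} (π : SimpleGraph V → ℕ) (G : SimpleGraph V) : Prop :=
  ∀ u v : V, u ≠ v → ¬ G.Adj u v → π (G ⊔ SimpleGraph.edge u v) < π G

theorem Irredundant.mono {V : Type} {G : SimpleGraph V} {S S' : Finset V} (h : S ⊆ S')
    (hS : Irredundant G S') : Irredundant G S := by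
  intro v hv
  obtain ⟨w, hw1, hw2⟩ := hS v (h hv)
  exact ⟨w, hw1, fun u hu huv => hw2 u (h hu) huv⟩

/-- the edges of the graph -/
def base (u v : Fin 10) : Bool :=
  [(0, 7), (0, 9), (1, 2), (1, 7), (1, 8), (2, 8), (2, 9), (3, 4), (3, 5), (3, 6), (3, 7), (4, 5),
   (4, 6), (4, 8), (5, 6), (5, 9), (6, 9), (7, 8), (7, 9), (8, 9)].contains (u.val, v.val) ||
  [(0, 7), (0, 9), (1, 2), (1, 7), (1, 8), (2, 8), (2, 9), (3, 4), (3, 5), (3, 6), (3, 7), (4, 5),
   (4, 6), (4, 8), (5, 6), (5, 9), (6, 9), (7, 8), (7, 9), (8, 9)].contains (v.val, u.val)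

/-- the graph with `10` vertices -/
def G : SimpleGraph (Fin 10) where
  Adj u v := base u v = true
  symm := ⟨by decide⟩
  loopless := ⟨by decide⟩

/-- the adjacency with the additional edge `pq` -/
def aug (p q u v : Fin 10) : Bool := base u v || (u == p && v == q) || (u == q && v == p)

theorem aug_iff {p q : Fin 10} (hpq : p ≠ q) (u v : Fin 10) :
    (G ⊔ SimpleGraph.edge p q).Adj u v ↔ aug p q u v = true := by
  rw [SimpleGraph.sup_adj, SimpleGraph.edge_adj]
  unfold aug
  simp only [Bool.or_eq_true, Bool.and_eq_true, beq_iff_eq]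
  constructor
  · rintro (h | ⟨h, -⟩)
    · exact Or.inl (Or.inl h)
    · rcases h with ⟨rfl, rfl⟩ | ⟨rfl, rfl⟩
      · exact Or.inl (Or.inr ⟨rfl, rfl⟩)
      · exact Or.inr ⟨rfl, rfl⟩
  · rintro ((h | ⟨rfl, rfl⟩) | ⟨rfl, rfl⟩)
    · exact Or.inl h
    · exact Or.inr ⟨Or.inl ⟨rfl, rfl⟩, hpq⟩
    · exact Or.inr ⟨Or.inr ⟨rfl, rfl⟩, hpq.symm⟩

/-- `v ∈ {x, y, z}` keeps a private neighbour with respect to `{x, y, z}` -/
def priv3 (a : Fin 10 → Fin 10 → Bool) (x y z v : Fin 10) : Bool :=
  (List.finRange 10).any fun w => (w == v || a v w) &&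
    [x, y, z].all fun u => u == v || !(w == u || a u w)

/-- `{x, y, z}` is irredundant -/
def irr3 (a : Fin 10 → Fin 10 → Bool) (x y z : Fin 10) : Bool :=
  [x, y, z].all fun v => priv3 a x y z v

/-- `{x, y}` is maximal irredundant -/
def maxirr2 (a : Fin 10 → Fin 10 → Bool) (x y : Fin 10) : Bool :=
  irr3 a x y y && (List.finRange 10).all fun z => z == x || z == y || !irr3 a x y z

theorem irr3_iff (H : SimpleGraph (Fin 10)) (a : Fin 10 → Fin 10 → Bool)
    (ha : ∀ u v, H.Adj u v ↔ a u v = true) (x y z : Fin 10) :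
    Irredundant H {x, y, z} ↔ irr3 a x y z = true := by
  unfold Irredundant Private irr3 priv3
  simp only [ha, List.all_eq_true, List.any_eq_true, List.mem_finRange, true_and,
    Bool.and_eq_true, Bool.or_eq_true, beq_iff_eq, Bool.not_eq_true', Finset.mem_insert,
    Finset.mem_singleton, List.mem_cons, List.not_mem_nil, or_false, Bool.or_eq_false_iff,
    beq_eq_false_iff_ne, ne_eq, not_or, Bool.not_eq_true]
  constructor
  · intro h v hv
    obtain ⟨w, hw1, hw2⟩ := h v hv
    refine ⟨w, hw1, fun u hu => ?_⟩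
    by_cases huv : u = v
    · exact Or.inl huv
    · exact Or.inr (hw2 u hu huv)
  · intro h v hv
    obtain ⟨w, hw1, hw2⟩ := h v hv
    refine ⟨w, hw1, fun u hu huv => ?_⟩
    exact (hw2 u hu).resolve_left huv

theorem maxirr2_iff (H : SimpleGraph (Fin 10)) (a : Fin 10 → Fin 10 → Bool)
    (ha : ∀ u v, H.Adj u v ↔ a u v = true) (x y : Fin 10) :
    MaxIrredundant H {x, y} ↔ maxirr2 a x y = true := by
  have h2 : Irredundant H {x, y} ↔ irr3 a x y y = true := by
    rw [← irr3_iff H a ha]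
    simp
  unfold MaxIrredundant maxirr2
  rw [Bool.and_eq_true, ← h2]
  refine and_congr_right fun _ => ?_
  simp only [List.all_eq_true, List.mem_finRange, forall_true_left, Bool.or_eq_true, beq_iff_eq,
    Bool.not_eq_true']
  constructor
  · intro h z
    by_cases hz : z = x ∨ z = y
    · exact Or.inl hz
    · right
      rw [← Bool.not_eq_true, ← irr3_iff H a ha]
      apply h
      rw [Finset.ssubset_iff_subset_ne]
      constructor
      · intro w hw
        simp only [Finset.mem_insert, Finset.mem_singleton] at hw ⊢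
        tauto
      · intro heq
        apply hz
        have : z ∈ ({x, y} : Finset (Fin 10)) := by rw [heq]; simp
        simpa using this
  · intro h S' hS' hirr
    obtain ⟨hsub, hne⟩ := Finset.ssubset_iff_subset_ne.1 hS'
    have : ∃ z ∈ S', z ∉ ({x, y} : Finset (Fin 10)) := by
      by_contra hc
      push Not at hc
      exact hne (Finset.Subset.antisymm hsub hc)
    obtain ⟨z, hz, hzn⟩ := this
    have h1 : Irredundant H {x, y, z} := by
      refine Irredundant.mono ?_ hirr
      intro w hw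
      simp only [Finset.mem_insert, Finset.mem_singleton] at hw
      rcases hw with rfl | rfl | rfl
      · exact hsub (by simp)
      · exact hsub (by simp)
      · exact hz
    rw [irr3_iff H a ha] at h1
    have hz' : ¬ (z = x ∨ z = y) := by simpa using hzn
    have h3 := (h z).resolve_left hz'
    rw [h1] at h3
    exact Bool.noConfusion h3

/-- witnesses: maximal irredundant pairs after adding an edge -/
def wit : List ((ℕ × ℕ) × (Fin 10 × Fin 10)) :=
  [((0, 1), (1, 5)), ((0, 2), (2, 3)), ((0, 3), (2, 3)), ((0, 4), (8, 4)), ((0, 5), (1, 5)),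
   ((0, 6), (1, 6)), ((0, 8), (8, 3)), ((1, 3), (9, 3)), ((1, 4), (9, 4)), ((1, 5), (9, 5)),
   ((1, 6), (9, 6)), ((1, 9), (9, 3)), ((2, 3), (3, 7)), ((2, 4), (4, 7)), ((2, 5), (5, 7)),
   ((2, 6), (6, 7)), ((2, 7), (3, 7)), ((3, 8), (3, 5)), ((3, 9), (3, 4)), ((4, 7), (1, 2)),
   ((4, 9), (1, 2)), ((5, 7), (4, 5)), ((5, 8), (3, 5)), ((6, 7), (4, 6)), ((6, 8), (3, 6))]

theorem pairs : ∀ p q : Fin 10, p ≠ q → base p q = false →
    ∃ e ∈ wit, ((e.1.1 = p.val ∧ e.1.2 = q.val) ∨ (e.1.1 = q.val ∧ e.1.2 = p.val)) ∧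
      maxirr2 (aug p q) e.2.1 e.2.2 = true := by
  decide +kernel

theorem nopair : ∀ x y : Fin 10, maxirr2 base x y = false := by
  decide +kernel

theorem noempty : ∃ z : Fin 10, irr3 base z z z = true := by
  decide +kernel

theorem ir_G : 3 ≤ ir G := by
  have hne : {k : ℕ | ∃ S : Finset (Fin 10), MaxIrredundant G S ∧ S.card = k}.Nonempty := by
    -- a maximal irredundant set exists: an irredundant set of maximum size
    classical
    have hfin : (Finset.univ.filter (fun S : Finset (Fin 10) => Irredundant G S)).Nonempty :=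
      ⟨∅, Finset.mem_filter.2 ⟨Finset.mem_univ _, fun v hv => absurd hv (Finset.notMem_empty v)⟩⟩
    obtain ⟨S, hS, hmax⟩ := Finset.exists_max_image _ (fun S : Finset (Fin 10) => S.card) hfin
    refine ⟨S.card, S, ⟨(Finset.mem_filter.1 hS).2, ?_⟩, rfl⟩
    intro S' hSS' hirr
    have h1 := hmax S' (Finset.mem_filter.2 ⟨Finset.mem_univ _, hirr⟩)
    have h2 := Finset.card_lt_card hSS'
    omega
  obtain ⟨S, hS, hk⟩ := Nat.sInf_mem hne
  have hk' : S.card = ir G := hk
  by_contra hlt
  have hle : S.card ≤ 2 := by omega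
  rcases Nat.lt_or_ge 0 S.card with hpos | h0
  · have h2 : ∃ x y, S = {x, y} := by
      rcases Nat.lt_or_ge 1 S.card with h | h
      · obtain ⟨x, y, -, h⟩ := Finset.card_eq_two.1 (show S.card = 2 by omega)
        exact ⟨x, y, h⟩
      · obtain ⟨x, h⟩ := Finset.card_eq_one.1 (show S.card = 1 by omega)
        exact ⟨x, x, by rw [h]; simp⟩
    obtain ⟨x, y, rfl⟩ := h2
    rw [maxirr2_iff G base (fun _ _ => Iff.rfl), nopair] at hS
    exact Bool.noConfusion hS
  · have h0' : S = ∅ := Finset.card_eq_zero.1 (by omega)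
    subst h0'
    obtain ⟨z, hz⟩ := noempty
    rw [← irr3_iff G base (fun _ _ => Iff.rfl)] at hz
    refine hS.2 {z, z, z} ?_ hz
    rw [Finset.ssubset_iff_subset_ne]
    refine ⟨Finset.empty_subset _, ?_⟩
    intro h
    have : z ∈ (∅ : Finset (Fin 10)) := by rw [h]; simp
    simp at this

theorem ir_critical : EdgeCritical ir G := by
  intro p q hpq hadj
  have hb : base p q = false := by
    rw [← Bool.not_eq_true]
    exact hadj
  obtain ⟨e, -, -, he⟩ := pairs p q hpq hb
  have h1 := (maxirr2_iff (G ⊔ SimpleGraph.edge p q) (aug p q) (aug_iff hpq) e.2.1 e.2.2).2 he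
  have h2 : ir (G ⊔ SimpleGraph.edge p q) ≤ ({e.2.1, e.2.2} : Finset (Fin 10)).card :=
    Nat.sInf_le ⟨_, h1, rfl⟩
  have h3 : ({e.2.1, e.2.2} : Finset (Fin 10)).card ≤ 2 := Finset.card_le_two
  have h4 := ir_G
  omega

theorem dom3 : ∀ v : Fin 10, ∃ d ∈ ({0, 1, 3} : Finset (Fin 10)), v = d ∨ base d v = true := by
  decide +kernel

theorem nodom : ∀ x y : Fin 10, ∃ v : Fin 10, ∀ d : Fin 10, (d = x ∨ d = y) →
    ¬ (v = d ∨ aug 5 7 d v = true) := by
  decide +kernel

theorem gamma_not_critical : ¬ EdgeCritical gamma G := by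
  intro h
  have h57 : (5 : Fin 10) ≠ 7 := by decide
  have h1 := h 5 7 h57 (by
    intro hh
    have : base 5 7 = true := hh
    exact absurd this (by decide))
  have h2 : gamma G ≤ 3 := Nat.sInf_le ⟨{0, 1, 3}, dom3, by decide⟩
  have hne : {k : ℕ | ∃ D : Finset (Fin 10),
      Dominating (G ⊔ SimpleGraph.edge 5 7) D ∧ D.card = k}.Nonempty :=
    ⟨_, Finset.univ, fun v => ⟨v, Finset.mem_univ _, Or.inl rfl⟩, rfl⟩
  obtain ⟨D, hD, hk⟩ := Nat.sInf_mem hne
  have hk' : D.card = gamma (G ⊔ SimpleGraph.edge 5 7) := hk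
  have hle : D.card ≤ 2 := by omega
  have hsub : ∃ x y, ∀ d ∈ D, d = x ∨ d = y := by
    rcases Nat.lt_or_ge 1 D.card with h | h
    · obtain ⟨x, y, -, h⟩ := Finset.card_eq_two.1 (show D.card = 2 by omega)
      exact ⟨x, y, by rw [h]; intro d hd; simpa using hd⟩
    · rcases Nat.lt_or_ge 0 D.card with h' | h'
      · obtain ⟨x, h⟩ := Finset.card_eq_one.1 (show D.card = 1 by omega)
        exact ⟨x, x, by rw [h]; intro d hd; left; simpa using hd⟩
      · have h0' : D = ∅ := Finset.card_eq_zero.1 (by omega)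
        exact ⟨0, 0, by rw [h0']; intro d hd; simp at hd⟩
  obtain ⟨x, y, hxy⟩ := hsub
  obtain ⟨v, hv⟩ := nodom x y
  obtain ⟨d, hd, hdv⟩ := hD v
  refine hv d (hxy d hd) ?_
  rcases hdv with h | h
  · exact Or.inl h
  · exact Or.inr ((aug_iff h57 d v).1 h)

/-- **Theorem.** There is a graph (on `10` vertices) that is `ir`-edge-critical but not
`γ`-edge-critical. -/
theorem result : ∃ G : SimpleGraph (Fin 10), EdgeCritical ir G ∧ ¬ EdgeCritical gamma G :=
  ⟨G, ir_critical, gamma_not_critical⟩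

end Pool.Agent.Results.MP_7f565b_co.IrCriticalNotGamma
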